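import Pool.Agent.Lib.MP_c7b5d6_nt.Final

/-!
# Orbit intersections when the semigroup generated by the two maps has common left multiples

`X ⊆ P^N` is a projective variety over the number field `K`, `L = O_X(1)`, and `Φ`, `Ψ` are
`K`-endomorphisms of `X` with `Φ^* L ≅ L^d` and `Ψ^* L ≅ L^e`, where `d, e > 1` are
multiplicatively independent. Suppose that for arbitrarily large `j` the maps `Φ^j` and `Ψ^j` have a
common left multiple `v ∘ Φ^j = w ∘ Ψ^j` in the semigroup generated by `Φ` and `Ψ` (for instance
that some iterates of `Φ` and `Ψ` commute). Then for every `α ∈ X(K)` which is not preperiodic for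
`Φ` and every `β ∈ X(K)` there is at most one pair `(m, n)` with `Φ^m (α) = Ψ^n (β)`.
-/

set_option autoImplicit false

namespace Pool.Agent.Results.MP_c7b5d6_nt.CommonMultiple

open Pool.Agent.Lib.MP_c7b5d6_nt

theorem result (K : Type) [Field K] [NumberField K] (N : ℕ) (X : ProjVar K N) (d e : ℕ)
    (hd : 1 < d) (he : 1 < e) (hind : MulIndep d e) (Φ : PolEnd X d) (Ψ : PolEnd X e)
    (h : CommonMult Φ.map Ψ.map) (α β : X.Pts) (hα : ¬ Preper Φ.map α) :
    (orbitSet Φ Ψ α β).Subsingleton :=
  final_rev hd he hind Φ Ψ h α β hα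

end Pool.Agent.Results.MP_c7b5d6_nt.CommonMultiple
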