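import Pool.Agent.Lib.MP_c7b5d6_nt.Final

/-!
# Orbit intersections for polarizable endomorphisms of multiplicatively independent degrees

`X ⊆ P^N` is a projective variety over the number field `K`, `L = O_X(1)`, and `Φ`, `Ψ` are
`K`-endomorphisms of `X` (not necessarily étale) with `Φ^* L ≅ L^d` and `Ψ^* L ≅ L^e`, where
`d, e > 1` are multiplicatively independent. For `α, β ∈ X(K)` which are not preperiodic the set
`S = S(Φ, Ψ, α, β)` satisfies a gap principle, with constants which do not depend on `α` and `β`: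
for `(m₁, n₁), (m₂, n₂), (m₃, n₃) ∈ S` with `m₁ < m₂ < m₃` one has `d ^ m₁ ≤ C * m₃`. So `S` has at
most `2 log* T + C` elements in the square `[0, T]²`, and `S` is a finite union of rays if and only
if it is finite.
-/

set_option autoImplicit false

namespace Pool.Agent.Results.MP_c7b5d6_nt.OrbitGap

open Pool.Agent.Lib.MP_c7b5d6_nt

theorem result (K : Type) [Field K] [NumberField K] (N : ℕ) (X : ProjVar K N) (d e : ℕ)
    (hd : 1 < d) (he : 1 < e) (hind : MulIndep d e) (Φ : PolEnd X d) (Ψ : PolEnd X e) :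
    (∃ C : ℝ, ∀ α β : X.Pts, ¬ Preper Φ.map α → ¬ Preper Ψ.map β →
      ∀ p ∈ orbitSet Φ Ψ α β, ∀ q ∈ orbitSet Φ Ψ α β, ∀ r ∈ orbitSet Φ Ψ α β,
        p.1 < q.1 → q.1 < r.1 → (d : ℝ) ^ p.1 ≤ C * r.1) ∧
    (∃ C : ℕ, ∀ α β : X.Pts, ¬ Preper Φ.map α → ¬ Preper Ψ.map β → ∀ T : ℕ,
      (orbitSet Φ Ψ α β ∩ {p | p.1 ≤ T ∧ p.2 ≤ T}).ncard ≤ 2 * logStar T + C) ∧
    ∀ α β : X.Pts, ¬ Preper Φ.map α → ¬ Preper Ψ.map β →
      (IsRayUnion (orbitSet Φ Ψ α β) ↔ (orbitSet Φ Ψ α β).Finite) :=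
  ⟨final_gap hd he hind Φ Ψ, final_count hd he hind Φ Ψ,
    fun α β hα hβ => final_rays hd he hind Φ Ψ α β hα hβ⟩

end Pool.Agent.Results.MP_c7b5d6_nt.OrbitGap
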